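import Pool.Agent.H950.ON.St
import Pool.Agent.H950.FK.Pf.Coup

set_option autoImplicit false

/-!
# ON-O9: monotonicity of the measures, as a coupling (helper294)

The statement `Pool.Agent.H950.ON.S_cmp` of the project ON from `S_fkg`, `S_crd`, `S_lps` (compare
`Pool/Agent/H950/FK/Pf/Cmp.lean`).
-/

namespace Pool.Agent.H294.ONc

open Pool.Agent.X136.ON Pool.Agent.H950.ON

/-! ### Basic facts -/

theorem mem_bx {l r c d : ℤ} {h : Hx} : h ∈ bx l r c d ↔ (l ≤ h.1 ∧ h.1 ≤ r) ∧ (c ≤ h.2 ∧ h.2 ≤ d) := by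
  unfold bx
  rw [Finset.mem_product, Finset.mem_Icc, Finset.mem_Icc]

theorem ins_rows (D : TD) {h : Hx} (hh : h ∈ D.ins) : (D.lo < h.2 ∧ h.2 < D.hi) ∧
    (D.w h.2 < h.1 ∧ h.1 < D.z h.2) := by
  rw [TD.mem_ins] at hh
  obtain ⟨h1, h2⟩ := hh
  have h1' : D.w h.2 < h.1 := not_le.1 h1
  have h2' : h.1 < D.z h.2 := not_le.1 h2
  refine ⟨⟨?_, ?_⟩, h1', h2'⟩
  · by_contra hc
    have := D.bot h.2 (by omega)
    omega
  · by_contra hc
    have := D.top h.2 (by omega)
    omega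

theorem ins_sub (D : TD) {l r c d : ℤ} (hf : Fits D l r c d) : D.ins ⊆ bx l r c d := by
  intro h hh
  obtain ⟨⟨h1, h2⟩, h3, h4⟩ := ins_rows D hh
  have h5 := hf.lo
  have h6 := hf.hi
  have h7 := hf.w h.2 (by omega) (by omega)
  have h8 := hf.z h.2 (by omega) (by omega)
  rw [mem_bx]
  omega

theorem wt_pos (D : TD) {n x : ℝ} (hn : 0 < n) (hx : 0 < x) (F : Finset Hx) : 0 < D.wt n x F := by
  unfold TD.wt weight
  positivity

theorem Zpos (D : TD) {n x : ℝ} (hn : 0 < n) (hx : 0 < x) :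
    0 < ∑ G ∈ D.ins.powerset, D.wt n x G :=
  Finset.sum_pos (fun G _ => wt_pos D hn hx G) ⟨∅, Finset.empty_mem_powerset _⟩

theorem mu_nonneg (D : TD) {n x : ℝ} (hn : 0 < n) (hx : 0 < x) (F : Finset Hx) :
    0 ≤ D.mu n x F := by
  unfold TD.mu
  exact div_nonneg (wt_pos D hn hx F).le (Zpos D hn hx).le

theorem mu_sum (D : TD) {n x : ℝ} (hn : 0 < n) (hx : 0 < x) :
    ∑ F ∈ D.ins.powerset, D.mu n x F = 1 := by
  unfold TD.mu
  rw [← Finset.sum_div, div_self (Zpos D hn hx).ne']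

/-! ### Colourings of the parallelogram -/

open Classical in
/-- the hexagons of the parallelogram on the left of the domain -/
noncomputable def WS (D : TD) (S : Finset Hx) : Finset Hx := S.filter (· ∈ D.W)

/-- `A` comes from a colouring of `D` -/
def Good (D : TD) (S A : Finset Hx) : Prop := WS D S ⊆ A ∧ A \ WS D S ⊆ D.ins

theorem mem_WS {D : TD} {S : Finset Hx} {e : Hx} : e ∈ WS D S ↔ e ∈ S ∧ e ∈ D.W := by
  classical
  unfold WS
  rw [Finset.mem_filter]

theorem WS_sub (D : TD) (S : Finset Hx) : WS D S ⊆ S := fun _ h => (mem_WS.1 h).1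

theorem disj (D : TD) (S F : Finset Hx) (hF : F ⊆ D.ins) : Disjoint F (WS D S) := by
  rw [Finset.disjoint_left]
  intro e he he'
  exact ((D.mem_ins).1 (hF he)).1 (mem_WS.1 he').2

theorem sdiff_of (D : TD) (S F : Finset Hx) (hF : F ⊆ D.ins) : (F ∪ WS D S) \ WS D S = F := by
  rw [Finset.union_sdiff_right]
  exact (Finset.sdiff_eq_self_iff_disjoint).2 (disj D S F hF)

theorem good_of (D : TD) (S F : Finset Hx) (hF : F ⊆ D.ins) : Good D S (F ∪ WS D S) := by
  refine ⟨Finset.subset_union_right, ?_⟩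
  rw [sdiff_of D S F hF]
  exact hF

theorem plV_eq (D : TD) (S F : Finset Hx) (hS : D.ins ⊆ S) (hF : F ⊆ D.ins) :
    plV D S F = F ∪ WS D S := by
  classical
  have hpl : ∀ h, h ∈ D.pl F ↔ h ∈ D.W ∨ h ∈ F := fun h => Iff.rfl
  ext h
  unfold plV
  rw [Finset.mem_filter, Finset.mem_union, mem_WS, hpl]
  constructor
  · rintro ⟨h1, h2 | h2⟩
    · exact Or.inr ⟨h1, h2⟩
    · exact Or.inl h2
  · rintro (h1 | h1)
    · exact ⟨hS (hF h1), Or.inr h1⟩
    · exact ⟨h1.1, Or.inl h1.2⟩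

/-- sums over the colourings of the parallelogram -/
theorem sum_eq (D : TD) (S : Finset Hx) (hS : D.ins ⊆ S) (h : Finset Hx → ℝ)
    (h0 : ∀ A ⊆ S, ¬ Good D S A → h A = 0) :
    ∑ A ∈ S.powerset, h A = ∑ F ∈ D.ins.powerset, h (F ∪ WS D S) := by
  classical
  have hinj : ∀ F ∈ D.ins.powerset, ∀ F' ∈ D.ins.powerset, F ∪ WS D S = F' ∪ WS D S → F = F' := by
    intro F hF F' hF' he
    rw [← sdiff_of D S F (Finset.mem_powerset.1 hF), he, sdiff_of D S F' (Finset.mem_powerset.1 hF')]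
  rw [← Finset.sum_image (f := h) (g := fun F => F ∪ WS D S) (s := D.ins.powerset)
    (fun F hF F' hF' he => hinj F hF F' hF' he)]
  symm
  apply Finset.sum_subset
  · intro A hA
    rw [Finset.mem_image] at hA
    obtain ⟨F, hF, rfl⟩ := hA
    rw [Finset.mem_powerset] at hF ⊢
    exact Finset.union_subset (hF.trans hS) (WS_sub D S)
  · intro A hA hA'
    apply h0 A (Finset.mem_powerset.1 hA)
    intro hg
    apply hA'
    rw [Finset.mem_image]
    exact ⟨A \ WS D S, Finset.mem_powerset.2 hg.2, Finset.sdiff_union_of_subset hg.1⟩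

open Classical in
/-- the law in the parallelogram -/
noncomputable def ff (D : TD) (S : Finset Hx) (n x : ℝ) (A : Finset Hx) : ℝ :=
  if Good D S A then D.mu n x (A \ WS D S) else 0

theorem ff_nonneg (D : TD) (S : Finset Hx) {n x : ℝ} (hn : 0 < n) (hx : 0 < x)
    (A : Finset Hx) : 0 ≤ ff D S n x A := by
  classical
  unfold ff
  split_ifs
  · exact mu_nonneg D hn hx _
  · exact le_rfl

theorem ff_of (D : TD) (S : Finset Hx) (n x : ℝ) (F : Finset Hx) (hF : F ⊆ D.ins) :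
    ff D S n x (F ∪ WS D S) = D.mu n x F := by
  classical
  unfold ff
  rw [if_pos (good_of D S F hF), sdiff_of D S F hF]

theorem ff_sum (D : TD) (S : Finset Hx) (hS : D.ins ⊆ S) {n x : ℝ} (hn : 0 < n) (hx : 0 < x) :
    ∑ A ∈ S.powerset, ff D S n x A = 1 := by
  classical
  rw [sum_eq D S hS (ff D S n x) (fun A _ h => by unfold ff; rw [if_neg h]), ← mu_sum D hn hx]
  exact Finset.sum_congr rfl fun F hF => ff_of D S n x F (Finset.mem_powerset.1 hF)

/-- the weights in the parallelogram -/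
theorem ff_wt (h7 : Pool.Agent.H950.ON.S_crd) (h8 : Pool.Agent.H950.ON.S_lps) (D : TD) {l r c d : ℤ}
    (hf : Fits D l r c d) {n x : ℝ} (hn : 0 < n) (hx : 0 < x) :
    ∃ C : ℝ, 0 < C ∧ ∀ A ⊆ bx l r c d, Good D (bx l r c d) A → ff D (bx l r c d) n x A =
      C * Ph n x (bx l r c d) A := by
  classical
  obtain ⟨k, hk⟩ := h7 D l r c d hf
  have hS := ins_sub D hf
  set S := bx l r c d with hSd
  have hZ := Zpos D hn hx
  refine ⟨1 / (x ^ k * n ^ 2 * ∑ G ∈ D.ins.powerset, D.wt n x G), by positivity,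
    fun A hA hg => ?_⟩
  have e1 : ff D S n x A = D.mu n x (A \ WS D S) := by unfold ff; rw [if_pos hg]
  have e2 : plV D S (A \ WS D S) = A := by
    rw [plV_eq D S _ hS hg.2]
    exact Finset.sdiff_union_of_subset hg.1
  have e3 := hk _ hg.2
  have e4 := h8 D l r c d hf _ hg.2
  rw [e2] at e3 e4
  unfold Ph
  rw [e1, ← e3, ← e4]
  unfold TD.mu TD.wt weight
  unfold TD.wt weight at hZ
  rw [pow_add, pow_add]
  have hx' : x ^ k ≠ 0 := by positivity
  have hn' : n ≠ 0 := hn.ne'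
  have hZ' := hZ.ne'
  field_simp

theorem W_mono {D D' : TD} (h : D.Le D') : D.W ⊆ D'.W := by
  intro e h1
  exact le_trans (show e.1 ≤ D.w e.2 from h1) (h.w _)

theorem Z_anti {D D' : TD} (h : D.Le D') {v : Hx} (hv : v ∉ D.Z) : v ∉ D'.Z := by
  intro h'
  exact hv (le_trans (h.z _) (show D'.z v.2 ≤ v.1 from h'))

theorem W_notZ (D : TD) {v : Hx} (hv : v ∈ D.W) : v ∉ D.Z := by
  intro h'
  have h1 : v.1 ≤ D.w v.2 := hv
  have h2 : D.z v.2 ≤ v.1 := h'
  have := D.lt v.2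
  omega

theorem good_notZ {D : TD} {S A : Finset Hx} (hg : Good D S A) {e : Hx} (he : e ∈ A) :
    e ∉ D.Z := by
  by_cases h : e ∈ WS D S
  · exact W_notZ D (mem_WS.1 h).2
  · exact (D.mem_ins.1 (hg.2 (Finset.mem_sdiff.2 ⟨he, h⟩))).2

theorem exists_fits (D D' : TD) (hle : D.Le D') : ∃ l r c d : ℤ, l < r ∧ c < d ∧
    Fits D l r c d ∧ Fits D' l r c d := by
  set c := min D.lo D'.lo - 1 with hc
  set d := max D.hi D'.hi + 1 with hd
  have h1 := D.lohi
  have h2 := D'.lohi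
  have hcd : c < d := by omega
  obtain ⟨M, hM⟩ := Finset.exists_le ((Finset.Icc c d).image fun y => -(D.w y))
  obtain ⟨R, hR⟩ := Finset.exists_le ((Finset.Icc c d).image D'.z)
  have hM' : ∀ y, c ≤ y → y ≤ d → -M ≤ D.w y := fun y hy hy' => by
    have h3 : -(D.w y) ≤ M := hM _ (Finset.mem_image_of_mem (fun y => -(D.w y)) (Finset.mem_Icc.2 ⟨hy, hy'⟩))
    omega
  have hR' : ∀ y, c ≤ y → y ≤ d → D'.z y ≤ R := fun y hy hy' =>
    hR _ (Finset.mem_image_of_mem D'.z (Finset.mem_Icc.2 ⟨hy, hy'⟩))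
  refine ⟨-M, R, c, d, ?_, hcd, ⟨by omega, by omega, hM', fun y hy hy' => (hle.z y).trans (hR' y hy hy')⟩,
    ⟨by omega, by omega, fun y hy hy' => (hM' y hy hy').trans (hle.w y), hR'⟩⟩
  have a1 := hM' c le_rfl hcd.le
  have a2 := hR' c le_rfl hcd.le
  have a3 := D.lt c
  have a4 := hle.z c
  omega

theorem t_cmp (h6 : Pool.Agent.H950.ON.S_fkg) (h7 : Pool.Agent.H950.ON.S_crd)
    (h8 : Pool.Agent.H950.ON.S_lps) : Pool.Agent.H950.ON.S_cmp := by
  classical
  intro D D' hle n x hn1 hx hnx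
  have hn : 0 < n := by linarith
  obtain ⟨l, r, c, d, hlr, hcd, hf, hf'⟩ := exists_fits D D' hle
  have hES : D.ins ⊆ bx l r c d := ins_sub D hf
  have hES' : D'.ins ⊆ bx l r c d := ins_sub D' hf'
  have hfkg := h6 n x hn1 hx hnx l r c d hlr hcd
  obtain ⟨C, hC, hCf⟩ := ff_wt h7 h8 D hf hn hx
  obtain ⟨C', hC', hCf'⟩ := ff_wt h7 h8 D' hf' hn hx
  set S := bx l r c d with hS
  obtain ⟨κ, k0, k1, k2, k3⟩ := Pool.Agent.H950.FKp.coupling S (ff D S n x) (ff D' S n x)
    (ff_nonneg D S hn hx) (ff_nonneg D' S hn hx)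
    ((ff_sum D S hES hn hx).trans (ff_sum D' S hES' hn hx).symm) (by
      intro A hA B hB
      by_cases hgA : Good D S A
      swap
      · have : ff D S n x A = 0 := by unfold ff; rw [if_neg hgA]
        rw [this, zero_mul]
        exact mul_nonneg (ff_nonneg D S hn hx _) (ff_nonneg D' S hn hx _)
      by_cases hgB : Good D' S B
      swap
      · have : ff D' S n x B = 0 := by unfold ff; rw [if_neg hgB]
        rw [this, mul_zero]
        exact mul_nonneg (ff_nonneg D S hn hx _) (ff_nonneg D' S hn hx _)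
      have hWW : WS D S ⊆ WS D' S := fun e he =>
        mem_WS.2 ⟨(mem_WS.1 he).1, W_mono hle (mem_WS.1 he).2⟩
      have g1 : Good D S (A ∩ B) := by
        refine ⟨Finset.subset_inter hgA.1 (hWW.trans hgB.1), ?_⟩
        exact (Finset.sdiff_subset_sdiff Finset.inter_subset_left le_rfl).trans hgA.2
      have g2 : Good D' S (A ∪ B) := by
        refine ⟨hgB.1.trans Finset.subset_union_right, ?_⟩
        intro e he
        rw [Finset.mem_sdiff, Finset.mem_union] at he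
        obtain ⟨he1, he2⟩ := he
        by_cases heB : e ∈ B
        · exact hgB.2 (Finset.mem_sdiff.2 ⟨heB, he2⟩)
        · have heA : e ∈ A := he1.resolve_right heB
          rw [TD.mem_ins]
          exact ⟨fun hW => he2 (mem_WS.2 ⟨hA heA, hW⟩), Z_anti hle (good_notZ hgA heA)⟩
      rw [hCf A hA hgA, hCf' B hB hgB, hCf (A ∩ B) (Finset.inter_subset_left.trans hA) g1,
        hCf' (A ∪ B) (Finset.union_subset hA hB) g2]
      have hs := hfkg A hA B hB
      calc C * Ph n x S A * (C' * Ph n x S B) = (C * C') * (Ph n x S A * Ph n x S B) := by ring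
        _ ≤ (C * C') * (Ph n x S (A ∩ B) * Ph n x S (A ∪ B)) :=
            mul_le_mul_of_nonneg_left hs (by positivity)
        _ = _ := by ring)
  have z1 : ∀ A ⊆ S, ¬ Good D S A → ∀ B ⊆ S, κ A B = 0 := by
    intro A hA hg B hB
    have h5 := k1 A hA
    have h6 : ff D S n x A = 0 := by unfold ff; rw [if_neg hg]
    rw [h6, Finset.sum_eq_zero_iff_of_nonneg (fun B _ => k0 A B)] at h5
    exact h5 B (Finset.mem_powerset.2 hB)
  have z2 : ∀ B ⊆ S, ¬ Good D' S B → ∀ A ⊆ S, κ A B = 0 := by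
    intro B hB hg A hA
    have h5 := k2 B hB
    have h6 : ff D' S n x B = 0 := by unfold ff; rw [if_neg hg]
    rw [h6, Finset.sum_eq_zero_iff_of_nonneg (fun A _ => k0 A B)] at h5
    exact h5 A (Finset.mem_powerset.2 hA)
  have sub1 : ∀ F ⊆ D.ins, F ∪ WS D S ⊆ S := fun F hF =>
    Finset.union_subset (hF.trans hES) (WS_sub D S)
  have sub2 : ∀ F ⊆ D'.ins, F ∪ WS D' S ⊆ S := fun F hF =>
    Finset.union_subset (hF.trans hES') (WS_sub D' S)
  refine ⟨fun F F' => κ (F ∪ WS D S) (F' ∪ WS D' S), ⟨fun F F' => k0 _ _, ?_, ?_⟩, ?_⟩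
  · intro F hF
    rw [← ff_of D S n x F hF, ← k1 _ (sub1 F hF)]
    exact (sum_eq D' S hES' (fun B => κ (F ∪ WS D S) B)
      (fun B hB hg => z2 B hB hg _ (sub1 F hF))).symm
  · intro F' hF'
    rw [← ff_of D' S n x F' hF', ← k2 _ (sub2 F' hF')]
    exact (sum_eq D S hES (fun A => κ A (F' ∪ WS D' S))
      (fun A hA hg => z1 A hA hg _ (sub2 F' hF'))).symm
  · intro F hF F' hF' hne e he
    have hsub := k3 _ (sub1 F hF) _ (sub2 F' hF') hne
    rcases he with he | he
    · exact Or.inl (W_mono hle he)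
    · rcases Finset.mem_union.1 (hsub (Finset.mem_union_left _ he)) with h | h
      · exact Or.inr h
      · exact Or.inl (mem_WS.1 h).2

end Pool.Agent.H294.ONc
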